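import Pool.Agent.Helper96.LB3.Stmts
import Pool.Agent.Helper86.LP.Section
import Pool.Agent.Helper67.LB.PLn

/-!
Project LB3 of helper96, row PRE: from the cube to the exponent `p`.
-/

open MeasureTheory Module Set Filter Topology
open scoped ENNReal

namespace Pool.Agent.Helper58.LB3

open Pool.Agent.Helper96.LB3
open Pool.Agent.Helper86.LP (Phi LC isLogConcave_iff)

/-- The density. -/
noncomputable def rho (p v : ℝ) : ℝ := p * Real.exp (p * v) * Real.exp (-Real.exp (p * v))

theorem rho_pos {p : ℝ} (hp : 0 < p) (v : ℝ) : 0 < rho p v := by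
  unfold rho; positivity

theorem rho_eq {p : ℝ} (hp : 0 < p) (v : ℝ) :
    rho p v = Real.exp (Real.log p + p * v - Real.exp (p * v)) := by
  unfold rho
  rw [sub_eq_add_neg, Real.exp_add, Real.exp_add, Real.exp_log hp]

theorem rho_lc {p : ℝ} (hp : 0 < p) {l m : ℝ} (hl : 0 < l) (hm : 0 < m) (hlm : l + m = 1)
    (u v : ℝ) : rho p u ^ l * rho p v ^ m ≤ rho p (l * u + m * v) := by
  rw [rho_eq hp, rho_eq hp, rho_eq hp, ← Real.exp_mul, ← Real.exp_mul, ← Real.exp_add]
  apply Real.exp_le_exp.2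
  have h1 := convexOn_exp.2 (mem_univ (p * u)) (mem_univ (p * v)) hl.le hm.le hlm
  simp only [smul_eq_mul] at h1
  have h2 : p * (l * u + m * v) = l * (p * u) + m * (p * v) := by ring
  rw [h2]
  have h3 : Real.log p = l * Real.log p + m * Real.log p := by
    rw [← add_mul, hlm, one_mul]
  nlinarith [h1, h3]

theorem continuous_rho (p : ℝ) : Continuous (rho p) := by
  unfold rho; fun_prop

theorem hasDeriv {p : ℝ} (c s : ℝ) :
    HasDerivAt (fun s => -Real.exp (-Real.exp (p * (s + c)))) (rho p (s + c)) s := by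
  have h1 : HasDerivAt (fun s : ℝ => p * (s + c)) (p * 1) s :=
    ((hasDerivAt_id s).add_const c).const_mul p
  have h2 := h1.exp.neg.exp.neg
  refine h2.congr_deriv ?_
  unfold rho
  simp only [Pi.neg_apply]
  ring

theorem lint_Ioi {p : ℝ} (hp : 0 < p) (c a : ℝ) :
    ∫⁻ s in Ioi a, ENNReal.ofReal (rho p (s + c))
      = ENNReal.ofReal (Real.exp (-Real.exp (p * (a + c)))) := by
  have htop : Tendsto (fun s : ℝ => -Real.exp (-Real.exp (p * (s + c)))) atTop (𝓝 0) := by
    have h1 : Tendsto (fun s : ℝ => p * (s + c)) atTop atTop :=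
      (tendsto_atTop_add_const_right _ c tendsto_id).const_mul_atTop hp
    have h2 := (Real.tendsto_exp_atTop.comp h1)
    have h3 := (Real.tendsto_exp_neg_atTop_nhds_zero.comp h2).neg
    simpa using h3
  have hd : ∀ x ∈ Ici a, HasDerivAt (fun s => -Real.exp (-Real.exp (p * (s + c))))
      (rho p (x + c)) x := fun x _ => hasDeriv c x
  have hpos : ∀ x ∈ Ioi a, 0 ≤ rho p (x + c) := fun x _ => (rho_pos hp _).le
  have hint := integrableOn_Ioi_deriv_of_nonneg' hd hpos htop
  have hval := integral_Ioi_of_hasDerivAt_of_nonneg' hd hpos htop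
  rw [← ofReal_integral_eq_lintegral_ofReal hint (Eventually.of_forall fun x =>
    (rho_pos hp _).le), hval]
  congr 1
  ring

theorem lint_univ {p : ℝ} (hp : 0 < p) (c : ℝ) :
    ∫⁻ s, ENNReal.ofReal (rho p (s + c)) = 1 := by
  set ν : Measure ℝ := volume.withDensity (fun s => ENNReal.ofReal (rho p (s + c))) with hν
  have h1 : ∀ N : ℕ, ν (Ioi (-(N : ℝ)))
      = ENNReal.ofReal (Real.exp (-Real.exp (p * (-(N : ℝ) + c)))) := by
    intro N
    rw [hν, withDensity_apply _ measurableSet_Ioi, lint_Ioi hp]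
  have hmono : Monotone (fun N : ℕ => Ioi (-(N : ℝ))) := by
    intro i j hij
    apply Ioi_subset_Ioi
    have : (i : ℝ) ≤ j := by exact_mod_cast hij
    linarith
  have hU : (⋃ N : ℕ, Ioi (-(N : ℝ))) = univ := by
    ext x
    simp only [mem_iUnion, mem_Ioi, mem_univ, iff_true]
    obtain ⟨N, hN⟩ := exists_nat_gt (-x)
    exact ⟨N, by linarith⟩
  have h2 : Tendsto (fun N : ℕ => ν (Ioi (-(N : ℝ)))) atTop (𝓝 (ν univ)) := by
    rw [← hU]
    exact tendsto_measure_iUnion_atTop hmono
  have h3 : Tendsto (fun N : ℕ => ν (Ioi (-(N : ℝ)))) atTop (𝓝 1) := by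
    simp only [h1]
    rw [← ENNReal.ofReal_one]
    apply ENNReal.tendsto_ofReal
    have e1 : Tendsto (fun N : ℕ => p * (-(N : ℝ) + c)) atTop atBot := by
      apply Tendsto.const_mul_atBot hp
      apply tendsto_atBot_add_const_right
      exact tendsto_neg_atTop_atBot.comp tendsto_natCast_atTop_atTop
    have e2 := (Real.tendsto_exp_atBot.comp e1).neg
    have e3 := (Real.continuous_exp.tendsto _).comp e2
    simpa [Function.comp_def] using e3
  have h4 := tendsto_nhds_unique h2 h3
  rw [hν, withDensity_apply _ MeasurableSet.univ, Measure.restrict_univ] at h4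
  exact h4

/-- The factor as an integral over the cubes. -/
theorem lint_fac {p : ℝ} (hp : 0 < p) (τ y : ℝ) (hy : 0 ≤ y) :
    ∫⁻ s, (if y ≤ Real.exp s then ENNReal.ofReal (rho p (s + τ / p)) else 0)
      = ENNReal.ofReal (Real.exp (-(Real.exp τ * y ^ p))) := by
  rcases hy.eq_or_lt with h | h
  · subst h
    have : ∀ s, (0 : ℝ) ≤ Real.exp s := fun s => (Real.exp_pos s).le
    simp only [this, if_true]
    rw [lint_univ hp, Real.zero_rpow hp.ne', mul_zero, neg_zero, Real.exp_zero,
      ENNReal.ofReal_one]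
  · have h1 : ∀ s, (y ≤ Real.exp s ↔ s ∈ Ici (Real.log y)) := by
      intro s
      rw [mem_Ici, Real.log_le_iff_le_exp h]
    have h2 : (fun s => if y ≤ Real.exp s then ENNReal.ofReal (rho p (s + τ / p)) else 0)
        = (Ici (Real.log y)).indicator (fun s => ENNReal.ofReal (rho p (s + τ / p))) := by
      funext s
      rw [indicator_apply]
      simp only [h1]
    rw [h2, lintegral_indicator measurableSet_Ici, setLIntegral_congr Ioi_ae_eq_Ici.symm,
      lint_Ioi hp]
    congr 3
    rw [mul_add, mul_div_cancel₀ _ hp.ne', Real.exp_add, Real.rpow_def_of_pos h]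
    rw [mul_comm, mul_comm p]

theorem lintegral_prod_pi : ∀ (n : ℕ) (f : Fin n → ℝ → ℝ≥0∞), (∀ i, Measurable (f i)) →
    ∫⁻ s : Fin n → ℝ, ∏ i, f i (s i) = ∏ i, ∫⁻ v, f i v := by
  intro n
  induction n with
  | zero =>
    intro f hf
    simp only [Finset.univ_eq_empty, Finset.prod_empty]
    rw [lintegral_one]
    simp [volume_pi]
  | succ n ih =>
    intro f hf
    have hm : Measurable (fun s : Fin (n + 1) → ℝ => ∏ i, f i (s i)) :=
      Finset.measurable_prod _ fun i _ => (hf i).comp (measurable_pi_apply i)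
    rw [Helper67.LB.lintegral_cons hm 0, Fin.prod_univ_succ]
    have h1 : ∀ (v : ℝ) (x' : Fin n → ℝ),
        ∏ i, f i (((0 : Fin (n + 1)).insertNth v x' : Fin (n + 1) → ℝ) i)
          = f 0 v * ∏ i, f (Fin.succ i) (x' i) := by
      intro v x'
      rw [Fin.prod_univ_succ]
      simp
    simp only [h1]
    have hm2 : Measurable (fun x' : Fin n → ℝ => ∏ i, f (Fin.succ i) (x' i)) :=
      Finset.measurable_prod _ fun i _ => (hf _).comp (measurable_pi_apply i)
    have h2 : ∀ v : ℝ, ∫⁻ x' : Fin n → ℝ, f 0 v * ∏ i, f (Fin.succ i) (x' i)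
        = f 0 v * ∏ i, ∫⁻ v, f (Fin.succ i) v := by
      intro v
      rw [lintegral_const_mul _ hm2, ih _ (fun i => hf _)]
    simp only [h2]
    rw [lintegral_mul_const _ (hf 0)]

variable {n : ℕ}

/-- The volume of the section of the box. -/
noncomputable def Vb (H : Submodule ℝ (EuclideanSpace ℝ (Fin n))) (s : Fin n → ℝ) : ℝ≥0∞ :=
  (volume : Measure H) {x : H | ∀ i, |(x : EuclideanSpace ℝ (Fin n)) i| ≤ Real.exp (s i)}

theorem measurableSet_box (H : Submodule ℝ (EuclideanSpace ℝ (Fin n))) :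
    MeasurableSet {z : (Fin n → ℝ) × H |
      ∀ i, |(z.2 : EuclideanSpace ℝ (Fin n)) i| ≤ Real.exp (z.1 i)} := by
  have h : {z : (Fin n → ℝ) × H |
      ∀ i, |(z.2 : EuclideanSpace ℝ (Fin n)) i| ≤ Real.exp (z.1 i)}
      = ⋂ i, {z : (Fin n → ℝ) × H |
      |(z.2 : EuclideanSpace ℝ (Fin n)) i| ≤ Real.exp (z.1 i)} := by
    ext z; simp
  rw [h]
  refine MeasurableSet.iInter fun i => ?_
  apply IsClosed.measurableSet
  apply isClosed_le
  · fun_prop
  · fun_prop

theorem measurable_Vb (H : Submodule ℝ (EuclideanSpace ℝ (Fin n))) : Measurable (Vb H) :=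
  measurable_measure_prodMk_left (measurableSet_box H)

theorem Vb_ne_top (H : Submodule ℝ (EuclideanSpace ℝ (Fin n))) (s : Fin n → ℝ) :
    Vb H s ≠ ∞ := by
  have hsub : {x : H | ∀ i, |(x : EuclideanSpace ℝ (Fin n)) i| ≤ Real.exp (s i)}
      ⊆ Metric.closedBall 0 (∑ i, Real.exp (s i)) := by
    intro x hx
    rw [mem_closedBall_zero_iff, Submodule.coe_norm, EuclideanSpace.norm_eq,
      Real.sqrt_le_left (Finset.sum_nonneg fun i _ => (Real.exp_pos _).le)]
    simp only [Real.norm_eq_abs]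
    refine (Finset.sum_le_sum fun i _ => ?_).trans
      (Finset.sum_sq_le_sq_sum_of_nonneg fun i _ => (Real.exp_pos _).le)
    exact pow_le_pow_left₀ (abs_nonneg _) (hx i) 2
  exact ((measure_mono hsub).trans_lt measure_closedBall_lt_top).ne

theorem Vb_eq (H : Submodule ℝ (EuclideanSpace ℝ (Fin n))) (s : Fin n → ℝ) :
    VS (volume : Measure H) (co H) (fun u => Real.exp (s u)) = (Vb H s).toReal := rfl

theorem Vb_lc (H : Submodule ℝ (EuclideanSpace ℝ (Fin n)))
    (hH : ∀ l m : ℝ, 0 < l → 0 < m → l + m = 1 → ∀ σ τ : Fin n → ℝ,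
      VS (volume : Measure H) (co H) (fun u => Real.exp (σ u)) ^ l *
        VS (volume : Measure H) (co H) (fun u => Real.exp (τ u)) ^ m ≤
        VS (volume : Measure H) (co H) (fun u => Real.exp (l * σ u + m * τ u)))
    {l m : ℝ} (hl : 0 < l) (hm : 0 < m) (hlm : l + m = 1) (x y : Fin n → ℝ) :
    Vb H x ^ l * Vb H y ^ m ≤ Vb H (l • x + m • y) := by
  have h1 := hH l m hl hm hlm x y
  have h2 : VS (volume : Measure H) (co H) (fun u => Real.exp (l * x u + m * y u))
      = (Vb H (l • x + m • y)).toReal := rfl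
  rw [h2, Vb_eq, Vb_eq, ENNReal.toReal_rpow, ENNReal.toReal_rpow, ← ENNReal.toReal_mul] at h1
  rwa [ENNReal.toReal_le_toReal (ENNReal.mul_ne_top
    (ENNReal.rpow_ne_top_of_nonneg hl.le (Vb_ne_top H x))
    (ENNReal.rpow_ne_top_of_nonneg hm.le (Vb_ne_top H y))) (Vb_ne_top H _)] at h1

/-- The integrand. -/
noncomputable def Fi (p : ℝ) (H : Submodule ℝ (EuclideanSpace ℝ (Fin n))) (τ s : Fin n → ℝ) :
    ℝ≥0∞ :=
  (∏ i, ENNReal.ofReal (rho p (s i + τ i / p))) * Vb H s

theorem measurable_Fi (p : ℝ) (H : Submodule ℝ (EuclideanSpace ℝ (Fin n))) (τ : Fin n → ℝ) :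
    Measurable (Fi p H τ) := by
  unfold Fi
  refine Measurable.mul ?_ (measurable_Vb H)
  refine Finset.measurable_prod _ fun i _ => ?_
  apply Measurable.ennreal_ofReal
  exact (continuous_rho p).measurable.comp ((measurable_pi_apply i).add_const _)

theorem Phi_eq {p : ℝ} (hp : 0 < p) (H : Submodule ℝ (EuclideanSpace ℝ (Fin n)))
    (τ : Fin n → ℝ) : Phi p H τ = ∫⁻ s, Fi p H τ s := by
  have hfm : ∀ (i : Fin n) (y : ℝ), Measurable (fun v : ℝ =>
      if y ≤ Real.exp v then ENNReal.ofReal (rho p (v + τ i / p)) else 0) := by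
    intro i y
    refine Measurable.ite (measurableSet_le measurable_const Real.measurable_exp) ?_
      measurable_const
    apply Measurable.ennreal_ofReal
    exact (continuous_rho p).measurable.comp (measurable_id.add_const _)
  unfold Phi
  have h1 : ∀ x : H, ∏ i, ENNReal.ofReal
      (Real.exp (-(Real.exp (τ i) * |(x : EuclideanSpace ℝ (Fin n)) i| ^ p)))
      = ∫⁻ s : Fin n → ℝ, ∏ i, (if |(x : EuclideanSpace ℝ (Fin n)) i| ≤ Real.exp (s i) then
          ENNReal.ofReal (rho p (s i + τ i / p)) else 0) := by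
    intro x
    rw [lintegral_prod_pi n (fun i v => if |(x : EuclideanSpace ℝ (Fin n)) i| ≤ Real.exp v then
          ENNReal.ofReal (rho p (v + τ i / p)) else 0) (fun i => hfm i _)]
    exact Finset.prod_congr rfl fun i _ => (lint_fac hp (τ i) _ (abs_nonneg _)).symm
  simp only [h1]
  rw [lintegral_lintegral_swap]
  · refine lintegral_congr fun s => ?_
    have h2 : ∀ x : H, ∏ i, (if |(x : EuclideanSpace ℝ (Fin n)) i| ≤ Real.exp (s i) then
          ENNReal.ofReal (rho p (s i + τ i / p)) else 0)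
        = {x : H | ∀ i, |(x : EuclideanSpace ℝ (Fin n)) i| ≤ Real.exp (s i)}.indicator
          (fun _ => ∏ i, ENNReal.ofReal (rho p (s i + τ i / p))) x := by
      intro x
      rw [Finset.prod_ite_zero, indicator_apply]
      simp
    simp only [h2]
    have hms : MeasurableSet {x : H | ∀ i, |(x : EuclideanSpace ℝ (Fin n)) i| ≤ Real.exp (s i)} :=
      measurable_prodMk_left (measurableSet_box H)
    rw [lintegral_indicator hms, setLIntegral_const]
    rfl
  · apply Measurable.aemeasurable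
    refine Finset.measurable_prod _ fun i _ => ?_
    refine Measurable.ite ?_ ?_ measurable_const
    · apply IsClosed.measurableSet
      apply isClosed_le
      · fun_prop
      · fun_prop
    · apply Measurable.ennreal_ofReal
      refine (continuous_rho p).measurable.comp ?_
      fun_prop

theorem Fi_lc {p : ℝ} (hp : 0 < p) (H : Submodule ℝ (EuclideanSpace ℝ (Fin n)))
    (hH : ∀ l m : ℝ, 0 < l → 0 < m → l + m = 1 → ∀ σ τ : Fin n → ℝ,
      VS (volume : Measure H) (co H) (fun u => Real.exp (σ u)) ^ l *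
        VS (volume : Measure H) (co H) (fun u => Real.exp (τ u)) ^ m ≤
        VS (volume : Measure H) (co H) (fun u => Real.exp (l * σ u + m * τ u)))
    {l m : ℝ} (hl : 0 < l) (hm : 0 < m) (hlm : l + m = 1) (a b x y : Fin n → ℝ) :
    Fi p H a x ^ l * Fi p H b y ^ m ≤ Fi p H (l • a + m • b) (l • x + m • y) := by
  unfold Fi
  rw [ENNReal.mul_rpow_of_nonneg _ _ hl.le, ENNReal.mul_rpow_of_nonneg _ _ hm.le,
    ← ENNReal.prod_rpow_of_nonneg hl.le, ← ENNReal.prod_rpow_of_nonneg hm.le,
    mul_mul_mul_comm, ← Finset.prod_mul_distrib]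
  refine mul_le_mul' ?_ (Vb_lc H hH hl hm hlm x y)
  apply Finset.prod_le_prod'
  intro i _
  have h1 := rho_lc hp hl hm hlm (x i + a i / p) (y i + b i / p)
  rw [ENNReal.ofReal_rpow_of_pos (rho_pos hp _), ENNReal.ofReal_rpow_of_pos (rho_pos hp _),
    ← ENNReal.ofReal_mul (Real.rpow_nonneg (rho_pos hp _).le _)]
  apply ENNReal.ofReal_le_ofReal
  refine h1.trans (le_of_eq ?_)
  congr 1
  simp only [Pi.add_apply, Pi.smul_apply, smul_eq_mul]
  ring

theorem st_PRE : ST_PRE := by
  intro n H hH p hp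
  have hp0 : 0 < p := by linarith
  rw [isLogConcave_iff hp]
  intro l m hl hm hlm a b
  rw [Phi_eq hp0, Phi_eq hp0, Phi_eq hp0]
  exact Helper67.LB.pl_pi n (measurable_Fi p H a) (measurable_Fi p H b) (measurable_Fi p H _)
    hl hm hlm (Fi_lc hp0 H hH hl hm hlm a b)

end Pool.Agent.Helper58.LB3
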